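import Mathlib

set_option autoImplicit false

/-!
# Decoupling of small-step walks can depend on the time variable

We exhibit a weighted non-singular small-step model, started with `(p, q) = (1, 1)`, which decouples
at `t = 1 / 95` but not at `t = 1 / 2904`; here `P(1,1) = 92`.
-/

namespace Pool.Agent.Results.MP_29028a_co.DependsOnTime

open Polynomial

/-- A model: a non-singular set of small steps, positive weights on the steps, and a starting
point `(p, q)` with `p > 0` and `q ≥ 0`. -/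
structure Model where
  /-- the step set -/
  S : Finset (ℤ × ℤ)
  /-- the weights -/
  w : ℤ × ℤ → ℝ
  /-- first exponent of the starting monomial -/
  p : ℕ
  /-- second exponent of the starting monomial -/
  q : ℕ
  /-- the steps lie in `{-1,0,1}²` and differ from `(0,0)` -/
  small : ∀ s ∈ S, (s.1 = -1 ∨ s.1 = 0 ∨ s.1 = 1) ∧ (s.2 = -1 ∨ s.2 = 0 ∨ s.2 = 1) ∧ s ≠ (0, 0)
  /-- every line `u X + v Y = 0` through the origin has a step strictly on each side -/
  nonsing : ∀ u v : ℝ, (u ≠ 0 ∨ v ≠ 0) →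
    (∃ s ∈ S, 0 < u * s.1 + v * s.2) ∧ (∃ s ∈ S, u * s.1 + v * s.2 < 0)
  /-- the weights are positive -/
  wpos : ∀ s ∈ S, 0 < w s
  /-- `p > 0` -/
  ppos : 0 < p

/-- The step polynomial `P(x,y) = ∑ w_(i,j) x^i y^j` at nonzero complex `x`, `y`. -/
noncomputable def stepPoly (M : Model) (x y : ℂ) : ℂ :=
  ∑ s ∈ M.S, (M.w s : ℂ) * x ^ s.1 * y ^ s.2

/-- `P(1,1)`, the total weight of the steps. -/
noncomputable def totalWeight (M : Model) : ℝ := ∑ s ∈ M.S, M.w s

/-- The model decouples at `t`: there are rational functions `R₁ = A / B` and `R₂ = C / D` over `ℂ`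
with `x^p y^q = R₁(x) + R₂(y)` at every point of the curve `1 - t P(x,y) = 0` which is not a pole
of `R₁(x)` or `R₂(y)`. -/
def DecouplesAt (M : Model) (t : ℝ) : Prop :=
  ∃ A B C D : ℂ[X], B ≠ 0 ∧ D ≠ 0 ∧ ∀ x y : ℂ, x ≠ 0 → y ≠ 0 → 1 - (t : ℂ) * stepPoly M x y = 0 →
    B.eval x ≠ 0 → D.eval y ≠ 0 →
      x ^ M.p * y ^ M.q = A.eval x / B.eval x + C.eval y / D.eval y

/-- the steps of the example -/
def exS : Finset (ℤ × ℤ) := {(1, 1), (1, 0), (0, 1), (1, -1), (-1, 1), (-1, -1)}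

/-- the weights of the example -/
def exw (s : ℤ × ℤ) : ℝ :=
  if s = (1, 1) then 4 else if s = (1, 0) then 22 else if s = (0, 1) then 22 else
    if s = (1, -1) then 10 else if s = (-1, 1) then 10 else 24

/-- the example -/
def exM : Model where
  S := exS
  w := exw
  p := 1
  q := 1
  small := by
    intro s hs
    simp only [exS, Finset.mem_insert, Finset.mem_singleton] at hs
    rcases hs with rfl | rfl | rfl | rfl | rfl | rfl <;> simp
  nonsing := by
    have key : ∀ u v : ℝ, (u ≠ 0 ∨ v ≠ 0) → ∃ s ∈ exS, 0 < u * ((s.1 : ℤ) : ℝ) + v * ((s.2 : ℤ) : ℝ) := by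
      intro u v h
      by_contra hc
      push Not at hc
      have h1 := hc (1, 1) (by simp [exS])
      have h2 := hc (1, -1) (by simp [exS])
      have h3 := hc (-1, 1) (by simp [exS])
      have h4 := hc (-1, -1) (by simp [exS])
      norm_num at h1 h2 h3 h4
      have hu : u = 0 := by linarith
      have hv : v = 0 := by linarith
      rcases h with h | h
      · exact h hu
      · exact h hv
    intro u v h
    refine ⟨key u v h, ?_⟩
    obtain ⟨s, hs, h1⟩ := key (-u) (-v) (by simpa using h)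
    exact ⟨s, hs, by linarith⟩
  wpos := by
    intro s _
    simp only [exw]
    split_ifs <;> norm_num
  ppos := one_pos

theorem total : totalWeight exM = 92 := by
  simp only [totalWeight, exM, exS]
  rw [Finset.sum_insert (by decide), Finset.sum_insert (by decide), Finset.sum_insert (by decide),
    Finset.sum_insert (by decide), Finset.sum_insert (by decide), Finset.sum_singleton]
  simp only [exw]
  norm_num

theorem kernel {x y : ℂ} (hx : x ≠ 0) (hy : y ≠ 0) :
    stepPoly exM x y * (x * y) = 4 * x ^ 2 * y ^ 2 + 22 * x ^ 2 * y + 22 * x * y ^ 2 + 10 * x ^ 2 +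
      10 * y ^ 2 + 24 := by
  simp only [stepPoly, exM, exS]
  rw [Finset.sum_insert (by decide), Finset.sum_insert (by decide), Finset.sum_insert (by decide),
    Finset.sum_insert (by decide), Finset.sum_insert (by decide), Finset.sum_singleton]
  simp only [exw]
  norm_num
  field_simp
  ring

/-- the kernel curve in polynomial form -/
def F (s x y : ℂ) : ℂ := 4 * x ^ 2 * y ^ 2 + 22 * x ^ 2 * y + 22 * x * y ^ 2 + 10 * x ^ 2 +
      10 * y ^ 2 + 24 - s * x * y

theorem kernel_iff {s : ℝ} (hs : s ≠ 0) {x y : ℂ} (hx : x ≠ 0) (hy : y ≠ 0) :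
    1 - ((1 / s : ℝ) : ℂ) * stepPoly exM x y = 0 ↔ F s x y = 0 := by
  have hs' : (s : ℂ) ≠ 0 := by exact_mod_cast hs
  have h := kernel hx hy
  have e : F s x y = -(s * (x * y)) * (1 - ((1 / s : ℝ) : ℂ) * stepPoly exM x y) := by
    have : -(s * (x * y)) * (1 - ((1 / s : ℝ) : ℂ) * stepPoly exM x y) =
        stepPoly exM x y * (x * y) - s * x * y := by
      push_cast
      field_simp
      ring
    rw [this, h, F]
  rw [e]
  constructor
  · intro h1; rw [h1, mul_zero]
  · intro h1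
    rcases mul_eq_zero.1 h1 with h2 | h2
    · exfalso
      exact (neg_ne_zero.2 (mul_ne_zero hs' (mul_ne_zero hx hy))) h2
    · exact h2

/-- decoupling at `t = 1 / 95` -/
theorem dec95 : DecouplesAt exM (1 / 95) := by
  refine ⟨(C 29 - C 5 * X) * (C 2 * X + C 1) - C (53 / 2), C 2 * X + C 1,
    - C 5 * X * (C 2 * X + C 1) - C (53 / 2), C 2 * X + C 1, ?_, ?_, ?_⟩
  · intro h
    have := congrArg (fun p => p.eval 0) h
    simp at this
  · intro h
    have := congrArg (fun p => p.eval 0) h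
    simp at this
  · intro x y hx hy hK h1 h2
    have hF := (kernel_iff (s := 95) (by norm_num) hx hy).1 hK
    simp only [eval_add, eval_mul, eval_sub, eval_neg, eval_C, eval_X] at h1 h2 ⊢
    simp only [exM, pow_one]
    simp only [F] at hF
    rw [div_add_div _ _ h1 h2, eq_div_iff (mul_ne_zero h1 h2)]
    push_cast at hF
    linear_combination hF

/-- the Moebius involution -/
noncomputable def mb (x : ℂ) : ℂ := (132 - x) / (1 + 55 * x)

theorem F_mb {x y : ℂ} (hx : 1 + 55 * x ≠ 0) (h : F 2904 x y = 0) : F 2904 (mb x) y = 0 := by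
  have e : F 2904 (mb x) y = 7261 / (1 + 55 * x) ^ 2 * F 2904 x y := by
    have e1 : mb x * (1 + 55 * x) = 132 - x := div_mul_cancel₀ _ hx
    rw [div_mul_eq_mul_div, eq_div_iff (pow_ne_zero 2 hx)]
    simp only [F]
    linear_combination (4 * y ^ 2 + 22 * y + 10) * (mb x * (1 + 55 * x) + 132 - x) * e1 +
      (22 * y ^ 2 - 2904 * y) * (1 + 55 * x) * e1
  rw [e, h, mul_zero]

theorem F_symm (s x y : ℂ) : F s x y = F s y x := by simp only [F]; ring

theorem mb_mb {x : ℂ} (hx : 1 + 55 * x ≠ 0) : mb (mb x) = x := by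
  have e1 : mb x * (1 + 55 * x) = 132 - x := div_mul_cancel₀ _ hx
  have h1 : 1 + 55 * mb x = 7261 / (1 + 55 * x) := by
    rw [eq_div_iff hx]; linear_combination 55 * e1
  have h2 : 132 - mb x = 7261 * x / (1 + 55 * x) := by
    rw [eq_div_iff hx]; linear_combination -e1
  rw [mb, h1, h2, div_div_div_cancel_right₀ hx]
  field_simp

/-- the set of inconvenient values -/
def bad (B : ℂ[X]) : Set ℂ :=
  {x | x = 0} ∪ {x | 132 - x = 0} ∪ {x | 1 + 55 * x = 0} ∪ {x | 55 * x ^ 2 + 2 * x - 132 = 0} ∪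
    {x | 4 * x ^ 2 + 22 * x + 10 = 0} ∪ {x | B.eval x = 0} ∪ mb '' {x | B.eval x = 0}

theorem fin_poly {p : ℂ[X]} (hp : p ≠ 0) : {x | p.eval x = 0}.Finite :=
  p.finite_setOfPred_isRoot hp

theorem fin_quad {a b c : ℂ} (h : a ≠ 0 ∨ c ≠ 0) : {x : ℂ | a * x ^ 2 + b * x + c = 0}.Finite := by
  have hp : (C a * X ^ 2 + C b * X + C c : ℂ[X]) ≠ 0 := by
    intro h0
    rcases h with h | h
    · have := congrArg (fun p => p.coeff 2) h0
      simp at this
      exact h this
    · have := congrArg (fun p => p.coeff 0) h0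
      simp at this
      exact h this
  refine (fin_poly hp).subset ?_
  intro x hx
  simp only [Set.mem_ofPred_eq, eval_add, eval_mul, eval_C, eval_pow, eval_X]
  exact hx

theorem bad_fin {B : ℂ[X]} (hB : B ≠ 0) : (bad B).Finite := by
  have h1 : {x : ℂ | x = 0}.Finite := Set.finite_singleton 0
  have h2 : {x : ℂ | 132 - x = 0}.Finite := by
    refine (Set.finite_singleton (132 : ℂ)).subset ?_
    intro x hx
    exact (sub_eq_zero.1 hx).symm
  have h3 : {x : ℂ | 1 + 55 * x = 0}.Finite := by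
    refine (Set.finite_singleton (-1 / 55 : ℂ)).subset ?_
    intro x hx
    have hx' : 1 + 55 * x = 0 := hx
    show x = -1 / 55
    linear_combination hx' / 55
  have h4 : {x : ℂ | 55 * x ^ 2 + 2 * x - 132 = 0}.Finite := by
    refine (fin_quad (a := 55) (b := 2) (c := -132) (Or.inl (by norm_num))).subset ?_
    intro x hx
    have hx' : 55 * x ^ 2 + 2 * x - 132 = 0 := hx
    show 55 * x ^ 2 + 2 * x + -132 = 0
    linear_combination hx'
  have h5 : {x : ℂ | 4 * x ^ 2 + 22 * x + 10 = 0}.Finite :=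
    fin_quad (a := 4) (b := 22) (c := 10) (Or.inl (by norm_num))
  exact ((((((h1.union h2).union h3).union h4).union h5).union (fin_poly hB)).union
    ((fin_poly hB).image mb))

theorem not_bad {B : ℂ[X]} {x : ℂ} (h : x ∉ bad B) : x ≠ 0 ∧ 132 - x ≠ 0 ∧ 1 + 55 * x ≠ 0 ∧
    55 * x ^ 2 + 2 * x - 132 ≠ 0 ∧ 4 * x ^ 2 + 22 * x + 10 ≠ 0 ∧ B.eval x ≠ 0 ∧
      B.eval (mb x) ≠ 0 := by
  simp only [bad, Set.mem_union, Set.mem_ofPred_eq, not_or, Set.mem_image, not_exists, not_and] at h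
  obtain ⟨⟨⟨⟨⟨⟨h1, h2⟩, h3⟩, h4⟩, h5⟩, h6⟩, h7⟩ := h
  exact ⟨h1, h2, h3, h4, h5, h6, fun h8 => h7 _ h8 (mb_mb h3)⟩

theorem mb_ne {x : ℂ} (h3 : 1 + 55 * x ≠ 0) (h4 : 55 * x ^ 2 + 2 * x - 132 ≠ 0) : x - mb x ≠ 0 := by
  intro h
  apply h4
  have : x - mb x = (55 * x ^ 2 + 2 * x - 132) / (1 + 55 * x) := by
    have e1 : mb x * (1 + 55 * x) = 132 - x := div_mul_cancel₀ _ h3
    rw [eq_div_iff h3]; linear_combination -e1
  rw [this, div_eq_zero_iff] at h
  rcases h with h | h
  · exact h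
  · exact absurd h h3

theorem fin_fib (b : ℂ) : {x : ℂ | F 2904 x b = 0}.Finite := by
  have h : (4 * b ^ 2 + 22 * b + 10) ≠ 0 ∨ (10 * b ^ 2 + 24) ≠ 0 := by
    by_contra hc
    push Not at hc
    obtain ⟨h1, h2⟩ := hc
    have h3 : b = -1 / 55 := by linear_combination (1 / 22) * h1 - (4 / 220) * h2
    rw [h3] at h2
    norm_num at h2
  refine (fin_quad (b := 22 * b ^ 2 - 2904 * b) h).subset ?_
  intro x hx
  have hx' : F 2904 x b = 0 := hx
  simp only [F] at hx'
  show (4 * b ^ 2 + 22 * b + 10) * x ^ 2 + (22 * b ^ 2 - 2904 * b) * x + (10 * b ^ 2 + 24) = 0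
  linear_combination hx'

/-- a point of the curve off the inconvenient values -/
theorem good_point {B D : ℂ[X]} (hB : B ≠ 0) (hD : D ≠ 0) :
    ∃ x y : ℂ, F 2904 x y = 0 ∧ x ∉ bad B ∧ y ∉ bad D := by
  have hfin : (bad B ∪ ⋃ b ∈ bad D, {x : ℂ | F 2904 x b = 0}).Finite :=
    (bad_fin hB).union ((bad_fin hD).biUnion fun b _ => fin_fib b)
  obtain ⟨x, hx⟩ := hfin.infinite_compl.nonempty
  simp only [Set.mem_compl_iff, Set.mem_union, not_or, Set.mem_iUnion, not_exists] at hx
  obtain ⟨hx1, hx2⟩ := hx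
  have ha : 4 * x ^ 2 + 22 * x + 10 ≠ 0 := (not_bad hx1).2.2.2.2.1
  obtain ⟨z, hz⟩ := IsAlgClosed.exists_eq_mul_self
    (discrim (4 * x ^ 2 + 22 * x + 10) (22 * x ^ 2 - 2904 * x) (10 * x ^ 2 + 24))
  obtain ⟨y, hy⟩ := exists_quadratic_eq_zero ha ⟨z, hz⟩
  have hF : F 2904 x y = 0 := by
    simp only [F]
    linear_combination hy
  exact ⟨x, y, hF, hx1, fun h => hx2 y h hF⟩

/-- no decoupling at `t = 1 / 2904` -/
theorem ndec2904 : ¬ DecouplesAt exM (1 / 2904) := by
  rintro ⟨A, B, C', D, hB, hD, h⟩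
  obtain ⟨x, y, hF, hx, hy⟩ := good_point hB hD
  obtain ⟨x1, x2, x3, x4, -, x6, x7⟩ := not_bad hx
  obtain ⟨y1, y2, y3, y4, -, y6, y7⟩ := not_bad hy
  have x8 : mb x ≠ 0 := div_ne_zero x2 x3
  have y8 : mb y ≠ 0 := div_ne_zero y2 y3
  have hF1 : F 2904 (mb x) y = 0 := F_mb x3 hF
  have hF2 : F 2904 x (mb y) = 0 := by
    rw [F_symm]; exact F_mb y3 (by rw [← F_symm]; exact hF)
  have hF3 : F 2904 (mb x) (mb y) = 0 := F_mb x3 hF2
  have cast : ((2904 : ℝ) : ℂ) = 2904 := by norm_num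
  have k : ∀ a b : ℂ, a ≠ 0 → b ≠ 0 → F 2904 a b = 0 → B.eval a ≠ 0 → D.eval b ≠ 0 →
      a * b = A.eval a / B.eval a + C'.eval b / D.eval b := by
    intro a b ha hb hab h1 h2
    have h3 := h a b ha hb ((kernel_iff (s := 2904) (by norm_num) ha hb).2
      (by rw [cast]; exact hab)) h1 h2
    simpa only [exM, pow_one] using h3
  have e1 := k x y x1 y1 hF x6 y6
  have e2 := k (mb x) y x8 y1 hF1 x7 y6
  have e3 := k x (mb y) x1 y8 hF2 x6 y7
  have e4 := k (mb x) (mb y) x8 y8 hF3 x7 y7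
  have e5 : (x - mb x) * (y - mb y) = 0 := by linear_combination e1 - e2 - e3 + e4
  rcases mul_eq_zero.1 e5 with h5 | h5
  · exact mb_ne x3 x4 h5
  · exact mb_ne y3 y4 h5

/-- **Decoupling can depend on the time variable**: there are a model and two values `t₁, t₂` in
`(0, 1 / P(1,1))` such that the model decouples at `t₁` but not at `t₂`. -/
theorem result : ∃ (M : Model) (t₁ t₂ : ℝ), 0 < t₁ ∧ t₁ < 1 / totalWeight M ∧ 0 < t₂ ∧
    t₂ < 1 / totalWeight M ∧ DecouplesAt M t₁ ∧ ¬ DecouplesAt M t₂ := by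
  refine ⟨exM, 1 / 95, 1 / 2904, by norm_num, ?_, by norm_num, ?_, dec95, ndec2904⟩
  · rw [total]; norm_num
  · rw [total]; norm_num

end Pool.Agent.Results.MP_29028a_co.DependsOnTime
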